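import Pool.Agent.LRN.Defs

set_option autoImplicit false

/-! Squad LRN, row LR1: Leopoldt's conjecture for fields of unit rank at most one. -/

open Filter Topology NumberField
open Pool.Agent.Helper85_Leo

namespace Pool.Agent.LRN.H89

section norm

variable {p : ℕ} [hp : Fact p.Prime] {F : Type*} [NormedField F] [NormedAlgebra ℚ_[p] F]
  [IsUltrametricDist F]

include p in
theorem one_add_pow_eq (y : F) (hy : ‖y‖ ≤ 1) (n : ℕ) :
    ∃ q : F, ‖q‖ ≤ 1 ∧ (1 + y) ^ n = 1 + n * y + y ^ 2 * q := by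
  induction n with
  | zero => exact ⟨0, by simp, by simp⟩
  | succ n ih =>
    obtain ⟨q, hq, h⟩ := ih
    refine ⟨(n : F) + (q + q * y), ?_, ?_⟩
    · have h1 : ‖(n : F)‖ ≤ 1 := norm_natCast_le_one p n
      have h2 : ‖q * y‖ ≤ 1 := by
        rw [norm_mul]
        exact mul_le_one₀ hq (norm_nonneg _) hy
      refine (IsUltrametricDist.norm_add_le_max _ _).trans (max_le h1 ?_)
      exact (IsUltrametricDist.norm_add_le_max _ _).trans (max_le hq h2)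
    · rw [pow_succ, h]
      push_cast
      ring

theorem norm_pow_p_sub_one (z : F) (hz : ‖z - 1‖ ≤ ‖(p : F)‖ ^ 2) :
    ‖z ^ p - 1‖ = ‖(p : F)‖ * ‖z - 1‖ := by
  have hp0 : 0 < ‖(p : F)‖ := norm_pos_iff.2 (p_ne_zero p)
  have hp1 : ‖(p : F)‖ < 1 := by
    rw [norm_p_eq p]
    have : (1 : ℝ) < p := by exact_mod_cast hp.out.one_lt
    exact inv_lt_one_of_one_lt₀ this
  set y := z - 1 with hy
  rcases eq_or_ne y 0 with h0 | h0
  · have hz1 : z = 1 := by rwa [hy, sub_eq_zero] at h0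
    rw [h0, hz1]
    simp
  have hy0 : 0 < ‖y‖ := norm_pos_iff.2 h0
  have hyle : ‖y‖ ≤ 1 := hz.trans (pow_le_one₀ hp0.le hp1.le)
  obtain ⟨q, hq, h⟩ := one_add_pow_eq (p := p) y hyle p
  have hz' : z = 1 + y := by rw [hy]; ring
  have h1 : z ^ p - 1 = p * y + y ^ 2 * q := by
    rw [hz', h]
    ring
  have h2 : ‖y ^ 2 * q‖ < ‖(p : F) * y‖ := by
    rw [norm_mul, norm_mul, norm_pow]
    calc ‖y‖ ^ 2 * ‖q‖ ≤ ‖y‖ ^ 2 * 1 := mul_le_mul_of_nonneg_left hq (by positivity)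
      _ = ‖y‖ * ‖y‖ := by ring
      _ ≤ ‖(p : F)‖ ^ 2 * ‖y‖ := mul_le_mul_of_nonneg_right hz hy0.le
      _ < ‖(p : F)‖ * ‖y‖ := by
          refine mul_lt_mul_of_pos_right ?_ hy0
          rw [pow_two]
          calc ‖(p : F)‖ * ‖(p : F)‖ < ‖(p : F)‖ * 1 := mul_lt_mul_of_pos_left hp1 hp0
            _ = ‖(p : F)‖ := mul_one _
  rw [h1, IsUltrametricDist.norm_add_eq_max_of_norm_ne_norm (ne_of_gt h2), max_eq_left h2.le,
    norm_mul]

theorem norm_pow_ps_sub_one (z : F) (hz : ‖z - 1‖ ≤ ‖(p : F)‖ ^ 2) (s : ℕ) :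
    ‖z ^ (p ^ s) - 1‖ = ‖(p : F)‖ ^ s * ‖z - 1‖ := by
  have hp0 : 0 < ‖(p : F)‖ := norm_pos_iff.2 (p_ne_zero p)
  have hp1 : ‖(p : F)‖ < 1 := by
    rw [norm_p_eq p]
    have : (1 : ℝ) < p := by exact_mod_cast hp.out.one_lt
    exact inv_lt_one_of_one_lt₀ this
  induction s with
  | zero => simp
  | succ s ih =>
    have h1 : ‖z ^ (p ^ s) - 1‖ ≤ ‖(p : F)‖ ^ 2 := by
      rw [ih]
      calc ‖(p : F)‖ ^ s * ‖z - 1‖ ≤ 1 * ‖z - 1‖ :=
            mul_le_mul_of_nonneg_right (pow_le_one₀ hp0.le hp1.le) (norm_nonneg _)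
        _ ≤ ‖(p : F)‖ ^ 2 := by rw [one_mul]; exact hz
    have h2 := norm_pow_p_sub_one (z ^ (p ^ s)) h1
    rw [pow_succ, pow_mul, h2, ih]
    ring

theorem log_ne_zero {z l : F} (hz : ‖z - 1‖ ≤ ‖(p : F)‖ ^ 2) (hz1 : z ≠ 1)
    (h : HasLog p z l) : l ≠ 0 := by
  have hp0 : 0 < ‖(p : F)‖ := norm_pos_iff.2 (p_ne_zero p)
  have h1 : Tendsto (fun s : ℕ => ‖(z ^ (p ^ s) - 1) / (p : F) ^ s‖) atTop (𝓝 ‖l‖) :=
    (Filter.Tendsto.norm h)
  have h2 : (fun s : ℕ => ‖(z ^ (p ^ s) - 1) / (p : F) ^ s‖) = fun _ => ‖z - 1‖ := by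
    funext s
    rw [norm_div, norm_pow, norm_pow_ps_sub_one z hz]
    field_simp
  rw [h2] at h1
  have h3 : ‖l‖ = ‖z - 1‖ := tendsto_nhds_unique h1 tendsto_const_nhds
  intro hl
  rw [hl, norm_zero] at h3
  exact hz1 (sub_eq_zero.1 (norm_eq_zero.1 h3.symm))

end norm

/-- A power of a unit is congruent to `1` modulo `p ^ 2`. -/
theorem exists_pow {K : Type} [Field K] [NumberField K] (p : ℕ) [hp : Fact p.Prime]
    (u : (𝓞 K)ˣ) : ∃ e : ℕ, 0 < e ∧ ∃ x : 𝓞 K, ((u : 𝓞 K)) ^ e = 1 + (p : 𝓞 K) ^ 2 * x := by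
  have hI : Ideal.span {((p : 𝓞 K)) ^ 2} ≠ ⊥ := by
    rw [Ne, Ideal.span_singleton_eq_bot]
    have : ((p : ℕ) : 𝓞 K) ≠ 0 := by exact_mod_cast hp.out.ne_zero
    exact pow_ne_zero 2 this
  have hfin : Finite (𝓞 K ⧸ Ideal.span {((p : 𝓞 K)) ^ 2}) := Ideal.finiteQuotientOfFreeOfNeBot _ hI
  set φ := Ideal.Quotient.mk (Ideal.span {((p : 𝓞 K)) ^ 2}) with hφ
  have hfin' : Finite (𝓞 K ⧸ Ideal.span {((p : 𝓞 K)) ^ 2})ˣ := inferInstance
  have h1 : IsOfFinOrder (Units.map φ.toMonoidHom u) := isOfFinOrder_of_finite _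
  obtain ⟨e, he, h2⟩ := isOfFinOrder_iff_pow_eq_one.1 h1
  refine ⟨e, he, ?_⟩
  have h3 : φ ((u : 𝓞 K) ^ e) = φ 1 := by
    have := congrArg (fun t : (𝓞 K ⧸ Ideal.span {((p : 𝓞 K)) ^ 2})ˣ =>
      (t : 𝓞 K ⧸ Ideal.span {((p : 𝓞 K)) ^ 2})) h2
    simpa using this
  have h4 : (u : 𝓞 K) ^ e - 1 ∈ Ideal.span {((p : 𝓞 K)) ^ 2} := Ideal.Quotient.eq.1 h3
  obtain ⟨x, hx⟩ := Ideal.mem_span_singleton'.1 h4
  exact ⟨x, by linear_combination -hx⟩

theorem lr1 : Rk1Stmt := by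
  intro p hp K _ _ hrank
  by_cases hex : ∃ u : (𝓞 K)ˣ, ¬ IsOfFinOrder u
  · obtain ⟨u, hu⟩ := hex
    obtain ⟨e, he, x, hx⟩ := exists_pow p u
    have hval : ∀ σ : K →+* ℂ_[p], unitVal σ u ^ e - 1 = (p : ℂ_[p]) ^ 2 * σ (x : K) := by
      intro σ
      have h1 := congrArg (fun t : 𝓞 K => σ (t : K)) hx
      simp only [map_pow, map_add, map_one, map_mul, map_natCast] at h1
      change σ ((u : 𝓞 K) : K) ^ e - 1 = _
      rw [h1]
      ring
    have hsmall : ∀ σ : K →+* ℂ_[p], ‖unitVal σ u ^ e - 1‖ ≤ ‖(p : ℂ_[p])‖ ^ 2 := by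
      intro σ
      rw [hval σ, norm_mul, norm_pow]
      calc _ ≤ ‖(p : ℂ_[p])‖ ^ 2 * 1 :=
            mul_le_mul_of_nonneg_left (norm_embedding_le_one σ x) (by positivity)
        _ = _ := mul_one _
    have hp1 : ‖(p : ℂ_[p])‖ < 1 := by
      rw [norm_p_eq p]
      have : (1 : ℝ) < p := by exact_mod_cast hp.out.one_lt
      exact inv_lt_one_of_one_lt₀ this
    have hne : ∀ σ : K →+* ℂ_[p], unitVal σ u ^ e ≠ 1 := by
      intro σ h1
      apply hu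
      rw [isOfFinOrder_iff_pow_eq_one]
      refine ⟨e, he, ?_⟩
      have h2 : σ (((u ^ e : (𝓞 K)ˣ) : 𝓞 K) : K) = σ (((1 : (𝓞 K)ˣ) : 𝓞 K) : K) := by
        have h3 : unitVal σ (u ^ e) = unitVal σ 1 := by
          rw [map_pow, h1, map_one]
        exact h3
      have h3 := σ.injective h2
      exact Units.ext (RingOfIntegers.coe_injective h3)
    -- the logarithm
    have hlog : ∀ σ : K →+* ℂ_[p], ∃ l : ℂ_[p], HasLog p (unitVal σ u ^ e) l := by
      intro σ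
      have h1 : ‖1 - unitVal σ u ^ e‖ < 1 := by
        rw [norm_sub_rev]
        refine (hsmall σ).trans_lt ?_
        exact pow_lt_one₀ (norm_nonneg _) hp1 (by norm_num)
      have h2 := hasLog_one_sub (p := p) h1
      rw [sub_sub_cancel] at h2
      exact ⟨_, h2⟩
    choose l hl using hlog
    have hl0 : ∀ σ, l σ ≠ 0 := fun σ => log_ne_zero (hsmall σ) (hne σ) (hl σ)
    refine leopoldtAt_of_logs p (F := ℂ_[p]) (ι := Fin 2) ![u, u⁻¹] e
      (fun σ => ![l σ, -l σ]) ?_ ?_ ?_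
    · intro σ i
      fin_cases i
      · exact hl σ
      · have h1 : unitVal σ u⁻¹ ^ e = (unitVal σ u ^ e)⁻¹ := by
          have h2 : unitVal σ u * unitVal σ u⁻¹ = 1 := by rw [← map_mul]; simp
          rw [← inv_pow, eq_inv_of_mul_eq_one_right h2]
        have h2 := (hl σ).inv
        rw [← h1] at h2
        exact h2
    · intro c hc
      obtain ⟨σ⟩ : Nonempty (K →+* ℂ_[p]) := by
        have : CharZero ℂ_[p] := charZero_of_padic p ℂ_[p]
        have h0 : Nonempty (K →ₐ[ℚ] ℂ_[p]) :=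
          ⟨IsAlgClosed.lift (R := ℚ) (S := K) (M := ℂ_[p])⟩
        exact ⟨h0.some.toRingHom⟩
      have h1 := hc σ
      rw [Fin.sum_univ_two] at h1
      have h2 : (c 0 - c 1) * l σ = 0 := by
        have h3 : c 0 * l σ + c 1 * (-l σ) = 0 := h1
        linear_combination h3
      have h3 : c 0 = c 1 := by
        rcases mul_eq_zero.1 h2 with h4 | h4
        · exact sub_eq_zero.1 h4
        · exact absurd h4 (hl0 σ)
      intro i j
      fin_cases i <;> fin_cases j <;> simp [h3]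
    · rw [Fintype.card_fin]
      omega
  · push Not at hex
    intro n ε _ hind a m _ _
    rcases Nat.eq_zero_or_pos n with h0 | h0
    · subst h0
      funext i
      exact i.elim0
    · exfalso
      obtain ⟨N, hN, h1⟩ := isOfFinOrder_iff_pow_eq_one.1 (hex (ε ⟨0, h0⟩))
      have h2 := hind (Pi.single ⟨0, h0⟩ (N : ℤ)) (by
        rw [Finset.prod_eq_single ⟨0, h0⟩]
        · rw [Pi.single_eq_same, zpow_natCast, h1]
        · intro j _ hj
          rw [Pi.single_eq_of_ne hj, zpow_zero]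
        · intro h
          exact absurd (Finset.mem_univ _) h)
      have h3 := congrFun h2 ⟨0, h0⟩
      rw [Pi.single_eq_same, Pi.zero_apply] at h3
      omega

end Pool.Agent.LRN.H89
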